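import Pool.Agent.R217.TB.Exist

set_option autoImplicit false

open Pool.Agent.R217.TB

namespace Pool.Agent.Results.MP_5288f0_an.Merge

/-- For all `α > 1`, `0 < ρ1 < ρ2` and `m1, m2 > 0`, the shocks of the two-bump solution exist, and
whatever their choice, they meet in finite time. -/
theorem result (α ρ1 ρ2 m1 m2 : ℝ) (hα : 1 < α) (_h1 : 0 < ρ1) (hρ : ρ1 < ρ2) (hm1 : 0 < m1)
    (hm2 : 0 < m2) :
    (∃ S1 S2 : ℝ → ℝ, TwoBump α ρ1 ρ2 m1 m2 S1 S2) ∧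
      ∀ S1 S2 : ℝ → ℝ, TwoBump α ρ1 ρ2 m1 m2 S1 S2 → ∃ t, 0 < t ∧ S1 t = S2 t :=
  ⟨exists_twoBump hα hρ hm1 hm2, fun _ _ h => merge hα hρ hm1 h⟩

end Pool.Agent.Results.MP_5288f0_an.Merge
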